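import Pool.Agent.H76.FF.Defs

/-!
The first obstruction at a general point: it is a derivation of the functions, and the second
connecting map is given by the connection.
-/

namespace Pool.Agent.H76.FF

variable {I : Img} {n : ℕ} {a : ℤ}

/-- All classes on `D` extend to `D_(k+1)` if the lower direct images are mapped onto each other. -/
theorem Img.one_onto (I : Img) (q : ℕ) (m : ℤ) (z : I.Z) :
    ∀ n, (∀ j, j < n + 1 → I.S j) → Function.Surjective (I.one q m z n)
  | 0, _ => fun y => ⟨y, rfl⟩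
  | n + 1, hS => by
      intro y
      obtain ⟨x, hx⟩ := Img.one_onto I q m z n (fun j hj => hS j (by omega)) y
      obtain ⟨u, hu⟩ := hS (n + 1) (by omega) q m z x
      exact ⟨u, by rw [Img.one, LinearMap.comp_apply, hu, hx]⟩

/-- A class on `D_(k)` which is zero on `D` is the product with the equation of `D` of a restriction. -/
theorem Img.ker_one (hI : I.Exact) (hS : ∀ j, j < n + 1 → I.S j) (q : ℕ) (m : ℤ) (z : I.Z)
    (y : I.R q (n + 1) m z) (hy : I.one q m z n y = 0) :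
    ∃ v, I.mz q n m z (I.res q n (m - 1) z v) = y := by
  obtain ⟨v, hv⟩ := hI.ker q n m z y hy
  obtain ⟨w, hw⟩ := hS n (by omega) q (m - 1) z v
  exact ⟨w, by rw [hw, hv]⟩

/-- `d` depends only on the restriction to `D`. -/
theorem Symbol.Gen.d_eq (A : Symbol I n a) (hG : A.Gen) (hI : I.Exact)
    (hS : ∀ j, j < n + 1 → I.S j) (g : I.G) (x y : I.R 0 (n + 1) 0 (I.pt g))
    (h : A.fn g (I.one 0 0 _ n x) = A.fn g (I.one 0 0 _ n y)) : A.d g x = A.d g y := by
  have h1 : I.one 0 0 _ n (x - y) = 0 := by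
    apply hG.fn_inj g
    rw [map_sub, map_sub, h, sub_self]
  obtain ⟨v, hv⟩ := Img.ker_one hI hS 0 0 _ _ h1
  have h2 := hG.d_mz g v
  rw [hv, map_sub, sub_eq_zero] at h2
  exact h2

theorem Symbol.Gen.lift (A : Symbol I n a) (hG : A.Gen) (hS : ∀ j, j < n + 1 → I.S j) (g : I.G)
    (f : A.O g) : ∃ x, A.fn g (I.one 0 0 (I.pt g) n x) = f := by
  obtain ⟨y, hy⟩ := hG.fn_onto g f
  obtain ⟨x, hx⟩ := Img.one_onto I 0 0 (I.pt g) n hS y
  exact ⟨x, by rw [hx, hy]⟩

/-- The first obstruction is `df/dt` times the one of the coordinate. -/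
theorem Symbol.Gen.d_der (A : Symbol I n a) (hG : A.Gen) (hI : I.Exact)
    (hS : ∀ j, j < n + 1 → I.S j) (g : I.G) (τ : I.R 0 (n + 1) 0 (I.pt g))
    (hτ : A.fn g (I.one 0 0 _ n τ) = A.t g) (x : I.R 0 (n + 1) 0 (I.pt g)) :
    A.d g x = A.der g (A.fn g (I.one 0 0 _ n x)) • A.d g τ := by
  choose L hL using Symbol.Gen.lift A hG hS g
  have key : ∀ x f, A.fn g (I.one 0 0 _ n x) = f → A.d g (L f) = A.d g x := fun x f h =>
    Symbol.Gen.d_eq A hG hI hS g _ _ (by rw [hL, h])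
  let δ : Derivation ℂ (A.O g) (I.R 1 1 (-(n + 1)) (I.pt g)) := Derivation.mk'
    { toFun := fun f => A.d g (L f)
      map_add' := fun f f' => by
        rw [key (L f + L f') (f + f') (by rw [map_add, map_add, hL, hL]), map_add]
      map_smul' := fun c f => by
        rw [key (c • L f) (c • f) (by rw [map_smul, map_smul, hL]), map_smul, RingHom.id_apply] }
    (fun f f' => by
      change A.d g (L (f * f')) = f • A.d g (L f') + f' • A.d g (L f)
      rw [key (A.mf g (L f) (L f')) (f * f') (by rw [hG.fn_mf, hL, hL]), hG.d_mf, hL, hL])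
  have hδ : ∀ f, δ f = A.d g (L f) := fun f => rfl
  have h := hG.derivation g δ (A.fn g (I.one 0 0 _ n x))
  rw [hδ, hδ, key x _ rfl, key τ _ hτ] at h
  exact h

/-- [Symbol] helper49, helper47 -/
theorem Symbol.Gen.connect (A : Symbol I n a) (hG : A.Gen) (hI : I.Exact)
    (hS : ∀ j, j < n + 1 → I.S j) (g : I.G) (τ : I.R 0 (n + 1) 0 (I.pt g))
    (hτ : A.fn g (I.one 0 0 _ n τ) = A.t g) (v : A.V g) (u : I.R 1 (n + 1) a (I.pt g))
    (hu : I.one 1 a _ n u = A.pr g v) : A.dd g u = A.pair g (A.d g τ) (A.pr g (A.na g v)) := by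
  obtain ⟨r, f, w, hv⟩ := hG.span g v
  choose L hL using Symbol.Gen.lift A hG hS g
  have hone : I.one 1 a (I.pt g) n (∑ i, A.mb g (L (f i)) (A.fl g (w i))) = A.pr g v := by
    rw [map_sum, hv, map_sum]
    refine Finset.sum_congr rfl fun i _ => ?_
    rw [hG.one_mb, hL, hG.one_fl, map_smul]
  have h1 : I.one 1 a (I.pt g) n (u - ∑ i, A.mb g (L (f i)) (A.fl g (w i))) = 0 := by
    rw [map_sub, hu, hone, sub_self]
  obtain ⟨y, hy⟩ := Img.ker_one hI hS 1 a _ _ h1
  have h2 := hG.dd_mz g y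
  rw [hy, map_sub, sub_eq_zero] at h2
  rw [h2, map_sum, hv, map_sum, map_sum, map_sum]
  refine Finset.sum_congr rfl fun i _ => ?_
  rw [hG.dd_mb, hG.dd_fl, mul_zero, zero_add, hG.one_fl, hG.na_smul, hG.na_inc, smul_zero, add_zero,
    map_smul, map_smul, Symbol.Gen.d_der A hG hI hS g τ hτ, hL, map_smul, LinearMap.smul_apply]

/-- [Symbol] helper49, helper47 -/
theorem Symbol.Gen.functions (A : Symbol I n a) (hG : A.Gen) (hI : I.Exact)
    (hS : ∀ j, j < n + 1 → I.S j) (g : I.G) (τ : I.R 0 (n + 1) 0 (I.pt g))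
    (hτ : A.fn g (I.one 0 0 _ n τ) = A.t g) (h0 : A.d g τ = 0) :
    ∀ f, ∃ u, I.res 0 (n + 1) 0 (I.pt g) u = f := by
  intro f
  apply hG.exact_d
  rw [Symbol.Gen.d_der A hG hI hS g τ hτ, h0, smul_zero]

end Pool.Agent.H76.FF
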